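import Mathlib

set_option autoImplicit false

namespace Pool.Agent.Results.MP_0d307c_co.FlagTrans

variable {G : Type} [Group G] {r : ℕ}

/-- C-group: distinct generating involutions with the intersection property -/
def IsCGroup (ρ : Fin r → G) : Prop :=
  Function.Injective ρ ∧ (∀ i, orderOf (ρ i) = 2) ∧ Subgroup.closure (Set.range ρ) = ⊤ ∧
    ∀ I J : Set (Fin r), Subgroup.closure (ρ '' I) ⊓ Subgroup.closure (ρ '' J) =
      Subgroup.closure (ρ '' (I ∩ J))

/-- the subgroup generated by all generators but the `i`-th -/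
def Gi (ρ : Fin r → G) (i : Fin r) : Subgroup G := Subgroup.closure (ρ '' {i}ᶜ)

/-- elements of the geometry: a type `i` with a right coset of `Gi i` -/
abbrev El (ρ : Fin r → G) : Type := {p : Fin r × Set G // ∃ g, p.2 = {x | x * g⁻¹ ∈ Gi ρ p.1}}

variable {ρ : Fin r → G}

def Inc (x y : El ρ) : Prop := (x.1.2 ∩ y.1.2).Nonempty

def Flag (F : Set (El ρ)) : Prop := ∀ x ∈ F, ∀ y ∈ F, Inc x y

def Chamber (C : Set (El ρ)) : Prop := Flag C ∧ ∀ i, ∃ x ∈ C, x.1.1 = i

def Res (F : Set (El ρ)) : Set (El ρ) :=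
  {x | x ∉ F ∧ (∀ y ∈ F, y.1.1 ≠ x.1.1) ∧ ∀ y ∈ F, Inc x y}

/-- incidence graph of the residue of `F` -/
def resGraph (F : Set (El ρ)) : SimpleGraph (Res F) := SimpleGraph.fromRel fun x y => Inc x.1 y.1

def Thin (ρ : Fin r → G) : Prop :=
  ∀ F : Set (El ρ), Flag F → F.ncard + 1 = r → {C | Chamber C ∧ F ⊆ C}.ncard = 2

def ResConn (ρ : Fin r → G) : Prop :=
  ∀ F : Set (El ρ), Flag F → (F.ncard + 2 ≤ r → (resGraph F).Connected) ∧
    (F.ncard + 1 = r → (Res F).Nonempty)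

/-- right multiplication by `g` -/
def act (g : G) (x : El ρ) : El ρ := ⟨(x.1.1, (· * g) '' x.1.2), by
  obtain ⟨h, e⟩ := x.2
  exact ⟨h * g, by rw [e]; ext y; simp [mul_assoc]⟩⟩

def FlagTransitive (ρ : Fin r → G) : Prop :=
  ∀ C D : Set (El ρ), Chamber C → Chamber D → ∃ g, D = act g '' C

lemma inc_symm {x y : El ρ} (h : Inc x y) : Inc y x := by rwa [Inc, Set.inter_comm]

lemma eq_of (x : El ρ) (g : G) (h : g ∈ x.1.2) : x.1.2 = {y | y * g⁻¹ ∈ Gi ρ x.1.1} := by
  obtain ⟨k, e⟩ := x.2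
  rw [e] at h ⊢
  ext y
  simp only [Set.mem_ofPred_eq] at h ⊢
  exact ⟨fun hy => by simpa [mul_assoc] using mul_mem hy (inv_mem h),
    fun hy => by simpa [mul_assoc] using mul_mem hy h⟩

lemma inc_refl (x : El ρ) : Inc x x := by
  obtain ⟨k, e⟩ := x.2
  exact ⟨k, by simp [e]⟩

lemma ty_inj {x y : El ρ} (h : Inc x y) (e : x.1.1 = y.1.1) : x = y := by
  obtain ⟨g, h1, h2⟩ := h
  exact Subtype.ext (Prod.ext e (by rw [eq_of x g h1, eq_of y g h2, e]))

lemma card_ty {F : Set (El ρ)} (h : Flag F) : F.Finite ∧ ((fun x => x.1.1) '' F).ncard = F.ncard :=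
  have i : Set.InjOn (fun x : El ρ => x.1.1) F := fun x hx y hy => ty_inj (h x hx y hy)
  ⟨Set.Finite.of_finite_image (Set.toFinite _) i, i.ncard_image⟩

lemma cham_iff {F : Set (El ρ)} (h : Flag F) : Chamber F ↔ F.ncard = r := by
  rw [← (card_ty h).2]
  constructor
  · intro c
    rw [show (fun x : El ρ => x.1.1) '' F = Set.univ from Set.eq_univ_of_forall c.2,
      Set.ncard_univ]; simp
  · intro c
    have := Set.eq_of_subset_of_ncard_le (Set.subset_univ ((fun x : El ρ => x.1.1) '' F))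
      (by rw [c, Set.ncard_univ]; simp)
    exact ⟨h, fun i => (this ▸ Set.mem_univ i : i ∈ (fun x : El ρ => x.1.1) '' F)⟩

lemma card_le {F : Set (El ρ)} (h : Flag F) : F.ncard ≤ r := by
  rw [← (card_ty h).2]
  simpa using Set.ncard_le_card ((fun x : El ρ => x.1.1) '' F)

lemma flag_ins {F : Set (El ρ)} (h : Flag F) {x : El ρ} (hx : ∀ y ∈ F, Inc x y) :
    Flag (insert x F) := by
  rintro a (rfl | ha) b (rfl | hb)
  exacts [inc_refl _, hx b hb, inc_symm (hx a ha), h a ha b hb]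

lemma extend (rc : ResConn ρ) (k : ℕ) : ∀ F : Set (El ρ), Flag F → F.ncard + k = r →
    ∃ C, Chamber C ∧ F ⊆ C := by
  induction k with
  | zero => exact fun F h e => ⟨F, (cham_iff h).mpr e, subset_rfl⟩
  | succ k ih =>
    intro F h e
    obtain ⟨x, hx⟩ : (Res F).Nonempty := by
      by_cases hk : k = 0
      · exact (rc F h).2 (by omega)
      · exact Set.nonempty_coe_sort.mp ((rc F h).1 (by omega)).nonempty
    obtain ⟨C, c, s⟩ := ih _ (flag_ins h hx.2.2)
      (by rw [Set.ncard_insert_of_notMem hx.1 (card_ty h).1]; omega)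
    exact ⟨C, c, (Set.subset_insert _ _).trans s⟩

lemma mem_res {F C : Set (El ρ)} (c : Flag C) (s : F ⊆ C) {x : El ρ} (hx : x ∈ C) (hn : x ∉ F) :
    x ∈ Res F := ⟨hn, fun y hy e => hn (ty_inj (c y (s hy) x hx) e ▸ hy), fun y hy => c x hx y (s hy)⟩

lemma conn (rc : ResConn ρ) (P : Set (El ρ) → Prop)
    (hP : ∀ F C D, Flag F → F.ncard + 1 = r → Chamber C → Chamber D → F ⊆ C → F ⊆ D → P C → P D)
    (k : ℕ) : ∀ F C D, Flag F → F.ncard + (k + 1) = r → Chamber C → Chamber D → F ⊆ C → F ⊆ D →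
      P C → P D := by
  induction k with
  | zero => exact hP
  | succ k ih =>
    intro F C D h e c d s1 s2 p
    have out : ∀ C, Chamber C → F ⊆ C → ∃ x ∈ C, x ∉ F := fun C c s =>
      Set.exists_of_ssubset (s.ssubset_of_ne fun e' => by
        have := (cham_iff c.1).mp c
        rw [← e'] at this; omega)
    obtain ⟨x, x1, x2⟩ := out C c s1
    obtain ⟨y, y1, y2⟩ := out D d s2
    have st : ∀ z : Res F, ∀ C D, Chamber C → Chamber D → insert z.1 F ⊆ C → insert z.1 F ⊆ D →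
        P C → P D := fun z C D => ih _ C D (flag_ins h z.2.2.2)
      (by rw [Set.ncard_insert_of_notMem z.2.1 (card_ty h).1]; omega)
    have key : ∀ u v : Res F, (resGraph F).Walk u v →
        (∀ D, Chamber D → insert u.1 F ⊆ D → P D) → ∀ D, Chamber D → insert v.1 F ⊆ D → P D := by
      intro u v w
      induction w with
      | nil => exact id
      | @cons u t v a _ ih2 =>
        refine fun hu => ih2 fun D d s => ?_
        have i : Inc t.1 u.1 := a.2.elim inc_symm id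
        have f : Flag (insert t.1 (insert u.1 F)) := flag_ins (flag_ins h u.2.2.2) (by
          rintro y (rfl | hy)
          exacts [i, t.2.2.2 y hy])
        obtain ⟨E, e1, e2⟩ := extend rc (r - _) _ f (Nat.add_sub_cancel' (card_le f))
        exact st t E D e1 d ((Set.insert_subset_insert (Set.subset_insert _ _)).trans e2) s
          (hu E e1 ((Set.subset_insert _ _).trans e2))
    obtain ⟨w⟩ := ((rc F h).1 (by omega)).preconnected ⟨x, mem_res c.1 s1 x1 x2⟩
      ⟨y, mem_res d.1 s2 y1 y2⟩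
    exact key _ _ w (fun E e1 e2 => st ⟨x, mem_res c.1 s1 x1 x2⟩ C E c e1
      (Set.insert_subset x1 s1) e2 p) D d (Set.insert_subset y1 s2)

def el (ρ : Fin r → G) (g : G) (i : Fin r) : El ρ := ⟨(i, {x | x * g⁻¹ ∈ Gi ρ i}), g, rfl⟩

lemma cham_el (g : G) : Chamber (Set.range (el ρ g)) := by
  refine ⟨?_, fun i => ⟨_, ⟨i, rfl⟩, rfl⟩⟩
  rintro _ ⟨i, rfl⟩ _ ⟨j, rfl⟩
  exact ⟨g, by simp [el]⟩

lemma act_el (g h : G) (i : Fin r) : act h (el ρ g i) = el ρ (g * h) i := by
  refine Subtype.ext (Prod.ext rfl ?_)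
  ext y; simp [act, el, mul_assoc]

theorem result (G : Type) [Group G] (r : ℕ) (ρ : Fin r → G) (hC : IsCGroup ρ) (ht : Thin ρ)
    (rc : ResConn ρ) : FlagTransitive ρ := by
  have all : ∀ D, Chamber D → ∃ g, D = Set.range (el ρ g) := by
    intro D d
    rcases Nat.eq_zero_or_pos r with rfl | hr
    · exact ⟨1, Set.ext fun x => x.1.1.elim0⟩
    refine conn rc (fun C => ∃ g, C = Set.range (el ρ g)) ?_ (r - 1) ∅ _ D (by simp [Flag])
      (by simp; omega) (cham_el 1) d (Set.empty_subset _) (Set.empty_subset _) ⟨1, rfl⟩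
    rintro F _ D h e c d s1 s2 ⟨g, rfl⟩
    obtain ⟨_, ⟨i, rfl⟩, x2⟩ := Set.exists_of_ssubset (s1.ssubset_of_ne fun e' => by
      have := (cham_iff c.1).mp c
      rw [← e'] at this; omega)
    have same : ∀ j, j ≠ i → el ρ g j = el ρ (ρ i * g) j := fun j hj =>
      ty_inj ⟨g, by simp [el], by
        simpa [el, Gi] using Subgroup.subset_closure (G := G) (k := ρ '' {j}ᶜ) ⟨i, hj.symm, rfl⟩⟩ rfl
    have s3 : F ⊆ Set.range (el ρ (ρ i * g)) := fun y hy => by
      obtain ⟨j, rfl⟩ := s1 hy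
      exact ⟨j, (same j fun e => x2 (e ▸ hy)).symm⟩
    have ne : Set.range (el ρ g) ≠ Set.range (el ρ (ρ i * g)) := fun e => by
      obtain ⟨j, hj⟩ : el ρ g i ∈ Set.range (el ρ (ρ i * g)) := e ▸ ⟨i, rfl⟩
      obtain rfl : j = i := congrArg (·.1.1) hj
      have m : g ∈ (el ρ (ρ j * g) j).1.2 := by rw [hj]; simp [el]
      have m2 : ρ j ∈ Gi ρ j := by simpa [el] using m
      have := hC.2.2.2 {j} {j}ᶜ
      rw [Set.inter_compl_self, Set.image_empty, Subgroup.closure_empty] at this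
      have m3 : ρ j ∈ (⊥ : Subgroup G) := this ▸ ⟨Subgroup.subset_closure ⟨j, rfl, rfl⟩, m2⟩
      have := hC.2.1 j
      rw [Subgroup.mem_bot.mp m3, orderOf_one] at this
      omega
    obtain ⟨A, B, -, hAB⟩ := Set.ncard_eq_two.mp (ht F h e)
    have m1 : Set.range (el ρ g) ∈ ({A, B} : Set _) := hAB ▸ ⟨c, s1⟩
    have m2 : Set.range (el ρ (ρ i * g)) ∈ ({A, B} : Set _) := hAB ▸ ⟨cham_el _, s3⟩
    have m3 : D ∈ ({A, B} : Set _) := hAB ▸ ⟨d, s2⟩
    simp only [Set.mem_insert_iff, Set.mem_singleton_iff] at m1 m2 m3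
    by_cases hD : D = Set.range (el ρ g)
    · exact ⟨g, hD⟩
    · exact ⟨ρ i * g, by grind⟩
  intro C D c d
  obtain ⟨g, rfl⟩ := all C c
  obtain ⟨h, rfl⟩ := all D d
  refine ⟨g⁻¹ * h, ?_⟩
  rw [← Set.range_comp]
  congr 1
  funext i
  simp [act_el]

end Pool.Agent.Results.MP_0d307c_co.FlagTrans
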